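import Pool.Agent.X234.CD.Perm

/-!
# Reflection of walks
-/

namespace Pool.Agent.X234.CD

open Classical

/-- columns connected to `i` without touching level `L` -/
def Conn (n : ℕ) (a : ℕ → ℤ) (i : ℕ) (L : ℤ) (j : ℕ) : Prop :=
  1 ≤ j ∧ j < n ∧ ∀ k, min i j ≤ k → k ≤ max i j → a k ≠ L

/-- reflection of the excursion around `i` about level `L` -/
noncomputable def refl (n : ℕ) (i : ℕ) (L : ℤ) (a : ℕ → ℤ) : ℕ → ℤ := fun j =>
  if Conn n a i L j then 2 * L - a j else a j

theorem refl_eq_L {n i : ℕ} {L : ℤ} {a : ℕ → ℤ} (j : ℕ) : refl n i L a j = L ↔ a j = L := by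
  unfold refl
  split_ifs <;> omega

theorem conn_refl {n i : ℕ} {L : ℤ} {a : ℕ → ℤ} (j : ℕ) :
    Conn n (refl n i L a) i L j ↔ Conn n a i L j := by
  unfold Conn
  simp only [ne_eq, refl_eq_L]

theorem refl_pos {n i : ℕ} {L : ℤ} {a : ℕ → ℤ} {j : ℕ} (h : Conn n a i L j) :
    refl n i L a j = 2 * L - a j := by
  unfold refl; rw [if_pos h]

theorem refl_neg {n i : ℕ} {L : ℤ} {a : ℕ → ℤ} {j : ℕ} (h : ¬ Conn n a i L j) :
    refl n i L a j = a j := by
  unfold refl; rw [if_neg h]

theorem refl_refl {n i : ℕ} {L : ℤ} (a : ℕ → ℤ) : refl n i L (refl n i L a) = a := by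
  funext j
  by_cases h : Conn n a i L j
  · have h' := (conn_refl (L := L) (i := i) j).mpr h
    rw [refl_pos h', refl_pos h]; ring
  · have h' : ¬ Conn n (refl n i L a) i L j := fun h' => h ((conn_refl j).mp h')
    rw [refl_neg h', refl_neg h]

theorem conn_succ {n i j : ℕ} {L : ℤ} {a : ℕ → ℤ} (h : Conn n a i L j) (hj : j + 1 < n)
    (hL : a (j + 1) ≠ L) : Conn n a i L (j + 1) := by
  refine ⟨by omega, hj, fun k h1 h2 => ?_⟩
  by_cases hk : k = j + 1
  · rw [hk]; exact hL
  · apply h.2.2 k <;> omega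

theorem conn_pred {n i j : ℕ} {L : ℤ} {a : ℕ → ℤ} (h : Conn n a i L (j + 1)) (hj : 1 ≤ j)
    (hL : a j ≠ L) : Conn n a i L j := by
  refine ⟨hj, by have := h.2.1; omega, fun k h1 h2 => ?_⟩
  by_cases hk : k = j
  · rw [hk]; exact hL
  · apply h.2.2 k <;> omega

/-- below the level -/
theorem conn_below {n p i : ℕ} {L : ℤ} {a : ℕ → ℤ} (ha : a ∈ W n p) (hi1 : 1 ≤ i) (hi2 : i < n)
    (hai : a i < L) {j : ℕ} (h : Conn n a i L j) : a j < L := by
  rcases le_total i j with hij | hij
  · induction j, hij using Nat.le_induction with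
    | base => exact hai
    | succ j hij ih =>
      have hj := h.1
      have hj2 := h.2.1
      have hjL : a j ≠ L := h.2.2 j (by omega) (by omega)
      have h' := conn_pred h (by omega) hjL
      have := ih h'
      have hs := ha.2.2 j (by omega) hj2
      have hL := h.2.2 (j + 1) (by omega) (by omega)
      omega
  · obtain ⟨d, rfl⟩ : ∃ d, i = j + d := ⟨i - j, by omega⟩
    clear hij
    induction d generalizing j with
    | zero => simpa using hai
    | succ d ih =>
      have hj := h.1
      have hjL : a (j + 1) ≠ L := h.2.2 (j + 1) (by omega) (by omega)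
      have h' : Conn n a (j + (d + 1)) L (j + 1) := conn_succ h (by omega) hjL
      have e : j + (d + 1) = (j + 1) + d := by ring
      have := ih (j := j + 1) (by omega) (by omega) (by rw [← e]; exact hai) (by rw [← e]; exact h')
      have hs := ha.2.2 j hj (by omega)
      have hL := h.2.2 j (by omega) (by omega)
      omega

/-- above the level -/
theorem conn_above {n p i : ℕ} {L : ℤ} {a : ℕ → ℤ} (ha : a ∈ W n p) (hi1 : 1 ≤ i) (hi2 : i < n)
    (hai : L < a i) {j : ℕ} (h : Conn n a i L j) : L < a j := by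
  rcases le_total i j with hij | hij
  · induction j, hij using Nat.le_induction with
    | base => exact hai
    | succ j hij ih =>
      have hj := h.1
      have hj2 := h.2.1
      have hjL : a j ≠ L := h.2.2 j (by omega) (by omega)
      have h' := conn_pred h (by omega) hjL
      have := ih h'
      have hs := ha.2.2 j (by omega) hj2
      have hL := h.2.2 (j + 1) (by omega) (by omega)
      omega
  · obtain ⟨d, rfl⟩ : ∃ d, i = j + d := ⟨i - j, by omega⟩
    clear hij
    induction d generalizing j with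
    | zero => simpa using hai
    | succ d ih =>
      have hj := h.1
      have hjL : a (j + 1) ≠ L := h.2.2 (j + 1) (by omega) (by omega)
      have h' : Conn n a (j + (d + 1)) L (j + 1) := conn_succ h (by omega) hjL
      have e : j + (d + 1) = (j + 1) + d := by ring
      have := ih (j := j + 1) (by omega) (by omega) (by rw [← e]; exact hai) (by rw [← e]; exact h')
      have hs := ha.2.2 j hj (by omega)
      have hL := h.2.2 j (by omega) (by omega)
      omega

/-- the reflected walk is a walk when the reflected levels are in range -/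
theorem refl_mem {n p i : ℕ} {L : ℤ} {a : ℕ → ℤ} (ha : a ∈ W n p)
    (hr : ∀ j, Conn n a i L j → 1 ≤ 2 * L - a j ∧ 2 * L - a j ≤ 2 * p + 2) :
    refl n i L a ∈ W n p := by
  refine ⟨fun j hj => ?_, fun j h1 h2 => ?_, fun j h1 h2 => ?_⟩
  · unfold refl
    rw [if_neg (fun h => hj ⟨h.1, h.2.1⟩)]
    exact ha.1 j hj
  · have h3 := ha.2.1 j h1 h2
    unfold refl
    split_ifs with h
    · have := hr j h
      omega
    · exact h3
  · have h3 := ha.2.2 j h1 h2
    by_cases c1 : Conn n a i L j
    · by_cases c2 : Conn n a i L (j + 1)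
      · unfold refl
        rw [if_pos c1, if_pos c2]; omega
      · have hL : a (j + 1) = L := by
          by_contra hne; exact c2 (conn_succ c1 h2 hne)
        unfold refl
        rw [if_pos c1, if_neg c2]; omega
    · by_cases c2 : Conn n a i L (j + 1)
      · have hL : a j = L := by
          by_contra hne; exact c1 (conn_pred c2 h1 hne)
        unfold refl
        rw [if_neg c1, if_pos c2]; omega
      · unfold refl
        rw [if_neg c1, if_neg c2]; exact h3

theorem conn_self {n i : ℕ} {L : ℤ} {a : ℕ → ℤ} (hi1 : 1 ≤ i) (hi2 : i < n) (h : a i ≠ L) :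
    Conn n a i L i := by
  refine ⟨hi1, hi2, fun k h1 h2 => ?_⟩
  have : k = i := by omega
  rw [this]; exact h

theorem finite_W (n p : ℕ) : (W n p).Finite := by
  apply Set.Finite.of_finite_image (f := fun (a : ℕ → ℤ) (i : Fin n) => a i)
  · apply Set.Finite.subset (Set.Finite.pi (t := fun _ : Fin n => Set.Icc (1 : ℤ) (2 * p + 5))
      (fun _ => Set.finite_Icc _ _))
    rintro f ⟨a, ha, rfl⟩ i -
    rw [Set.mem_Icc]
    by_cases hi : 1 ≤ (i : ℕ) ∧ (i : ℕ) < n
    · have := ha.2.1 i hi.1 hi.2
      simp only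
      omega
    · have := ha.1 i hi
      simp only
      omega
  · intro a ha b hb hab
    funext j
    by_cases hj : 1 ≤ j ∧ j < n
    · exact congrFun hab ⟨j, hj.2⟩
    · rw [ha.1 j hj, hb.1 j hj]

/-- the zigzag walk between levels `2m + 1` (odd columns) and `2m + 2` (even columns) -/
def zig (n p : ℕ) (x y : ℤ) : ℕ → ℤ := fun j =>
  if 1 ≤ j ∧ j < n then (if j % 2 = 0 then y else x) else 2 * p + 5

theorem zig_mem {n p : ℕ} {x y : ℤ} (hx : 1 ≤ x ∧ x ≤ 2 * p + 2 ∧ x % 2 = 1)
    (hy : 1 ≤ y ∧ y ≤ 2 * p + 2 ∧ y % 2 = 0) (hxy : y = x + 1 ∨ y = x - 1) :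
    zig n p x y ∈ W n p := by
  refine ⟨fun j hj => ?_, fun j h1 h2 => ?_, fun j h1 h2 => ?_⟩
  · unfold zig; rw [if_neg hj]
  · unfold zig; rw [if_pos ⟨h1, h2⟩]
    split_ifs <;> omega
  · unfold zig
    rw [if_pos (show 1 ≤ j ∧ j < n by omega), if_pos (show 1 ≤ j + 1 ∧ j + 1 < n by omega)]
    split_ifs <;> omega

/-- below the middle level more walks pass above -/
theorem count_low {n p i : ℕ} (hn : 3 ≤ n) {t : ℤ} (hi1 : 1 ≤ i) (hi2 : i < n) (ht1 : 1 ≤ t)
    (ht2 : t ≤ p) (hti : t % 2 = (i : ℤ) % 2) :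
    {a | a ∈ W n p ∧ ¬ t < a i}.ncard < {a | a ∈ W n p ∧ t < a i}.ncard := by
  have hfin : {a | a ∈ W n p ∧ t < a i}.Finite := (finite_W n p).subset (fun a h => h.1)
  have hinj : Set.InjOn (refl n i (t + 1)) {a | a ∈ W n p ∧ ¬ t < a i} := by
    intro a _ b _ h
    rw [← refl_refl (n := n) (i := i) (L := t + 1) a, h, refl_refl]
  rw [← hinj.ncard_image]
  apply Set.ncard_lt_ncard _ hfin
  rw [Set.ssubset_iff_of_subset]
  · -- the zigzag walk is not in the image
    refine ⟨zig n p (2 * t + 1) (2 * t + 2), ⟨zig_mem (by omega) (by omega) (by omega), ?_⟩, ?_⟩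
    · unfold zig
      rw [if_pos ⟨hi1, hi2⟩]
      split_ifs <;> omega
    · rintro ⟨a, ⟨ha, hai⟩, hae⟩
      have h1 : a = refl n i (t + 1) (zig n p (2 * t + 1) (2 * t + 2)) := by
        rw [← hae, refl_refl]
      have hc : Conn n (zig n p (2 * t + 1) (2 * t + 2)) i (t + 1) 2 := by
        refine ⟨by omega, by omega, fun k h1 h2 => ?_⟩
        unfold zig
        rw [if_pos (by omega)]
        split_ifs <;> omega
      have h2 : a 2 = 0 := by
        rw [h1]
        unfold refl
        rw [if_pos hc]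
        unfold zig
        rw [if_pos (by omega), if_pos rfl]
        ring
      have := (ha.2.1 2 (by omega) (by omega)).1
      omega
  · rintro b ⟨a, ⟨ha, hai⟩, rfl⟩
    have hai' := ha.2.1 i hi1 hi2
    have hlt : a i < t + 1 := by omega
    refine ⟨refl_mem ha (fun j hj => ?_), ?_⟩
    · have h1 := conn_below ha hi1 hi2 hlt hj
      have h2 := ha.2.1 j hj.1 hj.2.1
      omega
    · unfold refl
      rw [if_pos (conn_self hi1 hi2 (by omega))]
      omega

/-- above the middle level more walks pass below -/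
theorem count_high {n p i : ℕ} (hn : 3 ≤ n) {t : ℤ} (hi1 : 1 ≤ i) (hi2 : i < n) (ht1 : p < t)
    (ht2 : t ≤ 2 * p) (hti : t % 2 = (i : ℤ) % 2) :
    {a | a ∈ W n p ∧ t < a i}.ncard < {a | a ∈ W n p ∧ ¬ t < a i}.ncard := by
  have hfin : {a | a ∈ W n p ∧ ¬ t < a i}.Finite := (finite_W n p).subset (fun a h => h.1)
  have hinj : Set.InjOn (refl n i (t + 1)) {a | a ∈ W n p ∧ t < a i} := by
    intro a _ b _ h
    rw [← refl_refl (n := n) (i := i) (L := t + 1) a, h, refl_refl]
  rw [← hinj.ncard_image]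
  apply Set.ncard_lt_ncard _ hfin
  rw [Set.ssubset_iff_of_subset]
  · refine ⟨zig n p (2 * t - 2 * p - 1) (2 * t - 2 * p),
      ⟨zig_mem (by omega) (by omega) (by omega), ?_⟩, ?_⟩
    · unfold zig
      rw [if_pos ⟨hi1, hi2⟩]
      split_ifs <;> omega
    · rintro ⟨a, ⟨ha, hai⟩, hae⟩
      have h1 : a = refl n i (t + 1) (zig n p (2 * t - 2 * p - 1) (2 * t - 2 * p)) := by
        rw [← hae, refl_refl]
      have hc : Conn n (zig n p (2 * t - 2 * p - 1) (2 * t - 2 * p)) i (t + 1) 1 := by
        refine ⟨by omega, by omega, fun k h1 h2 => ?_⟩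
        unfold zig
        rw [if_pos (by omega)]
        split_ifs <;> omega
      have h2 : a 1 = 2 * p + 3 := by
        rw [h1]
        unfold refl
        rw [if_pos hc]
        unfold zig
        rw [if_pos (by omega), if_neg (by omega)]
        ring
      have := (ha.2.1 1 (by omega) (by omega)).2.1
      omega
  · rintro b ⟨a, ⟨ha, hai⟩, rfl⟩
    have hai' := ha.2.1 i hi1 hi2
    have hlt : t + 1 < a i := by omega
    refine ⟨refl_mem ha (fun j hj => ?_), ?_⟩
    · have h1 := conn_above ha hi1 hi2 hlt hj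
      have h2 := ha.2.1 j hj.1 hj.2.1
      omega
    · unfold refl
      rw [if_pos (conn_self hi1 hi2 (by omega))]
      omega

end Pool.Agent.X234.CD
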