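import Mathlib

/-!
# Condorcet domains from powers of a bipartite Coxeter element: definitions

Permutations in `S_n` are permutations of `ℕ` that move only `1, …, n`.
-/

namespace Pool.Agent.X234.CD

/-- The transposition of `i` and `i + 1`. -/
def s (i : ℕ) : Equiv.Perm ℕ := Equiv.swap i (i + 1)

/-- The product `s_{j_1} ⋯ s_{j_m}` of a word `(j_1, …, j_m)`. -/
def wp (w : List ℕ) : Equiv.Perm ℕ := (w.map s).prod

/-- Swapping two adjacent letters `a, b` of a word with `|a - b| ≥ 2`. -/
inductive CommStep : List ℕ → List ℕ → Prop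
  | swap (u v : List ℕ) (a b : ℕ) (h : a + 2 ≤ b ∨ b + 2 ≤ a) :
      CommStep (u ++ a :: b :: v) (u ++ b :: a :: v)

/-- The commutation class of a word. -/
def commClass (w : List ℕ) : Set (List ℕ) := {w' | Relation.ReflTransGen CommStep w w'}

/-- The products of all prefixes of words of a set of words. -/
def Pre (C : Set (List ℕ)) : Set (Equiv.Perm ℕ) := {x | ∃ w ∈ C, ∃ u, u <+: w ∧ wp u = x}

/-- The word `1, 3, 5, …` of the odd `i ≤ n - 1`; its product is `c_odd`. -/
def oddBlock (n : ℕ) : List ℕ := (List.range (n / 2)).map (fun j => 2 * j + 1)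

/-- The word `2, 4, …, 2k`, `k = ⌊(n - 1) / 2⌋`; its product is `c_even`. -/
def evenBlock (n : ℕ) : List ℕ := (List.range ((n - 1) / 2)).map (fun j => 2 * j + 2)

/-- The word of the first `m` alternating blocks `c_odd, c_even, c_odd, …`. -/
def alt (n : ℕ) : ℕ → List ℕ
  | 0 => []
  | m + 1 => alt n m ++ (if m % 2 = 0 then oddBlock n else evenBlock n)

/-- The domain `D_{n,p}`. -/
def dom (n p : ℕ) : Set (Equiv.Perm ℕ) := Pre (commClass (alt n (2 * p)))

/-- `a <_x b`: in the one-line notation of `x`, `a` is to the left of `b`. -/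
def before (x : Equiv.Perm ℕ) (a b : ℕ) : Prop := x⁻¹ a < x⁻¹ b

/-- The majority relation of the uniform tally on `D`. -/
def maj (D : Set (Equiv.Perm ℕ)) (a b : ℕ) : Prop :=
  {x | x ∈ D ∧ before x b a}.ncard < {x | x ∈ D ∧ before x a b}.ncard

end Pool.Agent.X234.CD
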