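import Pool.Agent.X234.CD.Count

/-!
# The majority relation
-/

namespace Pool.Agent.X234.CD

open Classical

theorem good_of_class {n p : ℕ} {w : List ℕ} (hw : w ∈ commClass (alt n (2 * p))) : Good n p w :=
  good_class (good_alt n p) hw

/-- equal walks give equal permutations -/
theorem wp_congr {n p : ℕ} (hn : 3 ≤ n) {w w' u u' : List ℕ} (hw : Good n p w) (hw' : Good n p w')
    (hu : u <+: w) (hu' : u' <+: w') (h : wk n p u = wk n p u') : wp u = wp u' := by
  ext j
  by_cases hj : 1 ≤ j ∧ j ≤ n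
  · have h1 := wp_eq hn hw u hu j hj.1 hj.2
    have h2 := wp_eq hn hw' u' hu' j hj.1 hj.2
    rw [h, ← h2] at h1
    exact_mod_cast h1
  · rw [wp_out u (fun i hi => hw.1 i (hu.subset hi)) j hj,
      wp_out u' (fun i hi => hw'.1 i (hu'.subset hi)) j hj]

/-- the values of a label -/
theorem exists_lab {n : ℕ} (hn : 3 ≤ n) {i : ℕ} {t : ℤ} (hi1 : 1 ≤ i) (hi2 : i < n)
    (hti : t % 2 = (i : ℤ) % 2) : ∃ v v' : ℕ, 1 ≤ v ∧ v' ≤ n ∧ v < v' ∧ Lab n i t v v' := by
  have o1 : (1 + (i : ℤ) - t) % 2 = 1 := by omega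
  have o2 : (1 - (i : ℤ) - t) % 2 = 1 := by omega
  have r1 := fold_range (n := n) (by omega) o1
  have r2 := fold_range (n := n) (by omega) o2
  have hne : fold n (1 + i - t) ≠ fold n (1 - i - t) := by
    intro h
    obtain ⟨k, hk⟩ := fold_inj (by omega) o1 o2 h
    have e : (i : ℤ) = n * k := by
      have : 2 * (i : ℤ) = 2 * (n * k) := by rw [← hk]; ring
      omega
    have := eq_zero_of_small e (by omega) (by omega)
    omega
  rcases lt_or_gt_of_ne hne with h | h
  · refine ⟨(fold n (1 + i - t)).toNat, (fold n (1 - i - t)).toNat, by omega, by omega, by omega,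
      Or.inl ⟨by omega, by omega⟩⟩
  · refine ⟨(fold n (1 - i - t)).toNat, (fold n (1 + i - t)).toNat, by omega, by omega, by omega,
      Or.inr ⟨by omega, by omega⟩⟩

/-- the domain is the injective image of the set of walks -/
theorem exists_param {n p : ℕ} (hn : 3 ≤ n) (hp : 2 * p ≤ n) :
    ∃ F : (ℕ → ℤ) → Equiv.Perm ℕ, dom n p = F '' W n p ∧ Set.InjOn F (W n p) ∧
      (∀ a ∈ W n p, ∀ v v', 1 ≤ v → v' ≤ n → v < v' → (before (F a) v' v ↔ Inv n a v v')) ∧
      (∀ a ∈ W n p, ∀ v v', v ≠ v' → (before (F a) v v' ↔ ¬ before (F a) v' v)) := by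
  have hex : ∀ a : ℕ → ℤ, ∃ u : List ℕ, a ∈ W n p →
      ∃ w ∈ commClass (alt n (2 * p)), u <+: w ∧ wk n p u = a := by
    intro a
    by_cases ha : a ∈ W n p
    · obtain ⟨w, hw, u, hu, hua⟩ := exists_word hn a ha
      exact ⟨u, fun _ => ⟨w, hw, hu, hua⟩⟩
    · exact ⟨[], fun h => absurd h ha⟩
  choose U hU using hex
  have hinv : ∀ a ∈ W n p, ∀ v v', 1 ≤ v → v' ≤ n → v < v' →
      (before (wp (U a)) v' v ↔ Inv n a v v') := by
    intro a ha v v' h1 h2 h3
    obtain ⟨w, hw, hu, hua⟩ := hU a ha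
    have := before_iff hn hp (good_of_class hw) (U a) hu v v' h1 h2 h3
    rw [hua] at this
    exact this
  refine ⟨fun a => wp (U a), ?_, ?_, hinv, ?_⟩
  · ext x
    constructor
    · rintro ⟨w, hw, u, hu, rfl⟩
      have hW := wk_mem (good_of_class hw) hu
      obtain ⟨w', hw', hu', hua'⟩ := hU _ hW
      exact ⟨wk n p u, hW, wp_congr hn (good_of_class hw') (good_of_class hw) hu' hu hua'⟩
    · rintro ⟨a, ha, rfl⟩
      obtain ⟨w, hw, hu, hua⟩ := hU a ha
      exact ⟨w, hw, U a, hu, rfl⟩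
  · -- injectivity
    have key : ∀ a ∈ W n p, ∀ b ∈ W n p, wp (U a) = wp (U b) → ∀ i, 1 ≤ i → i < n →
        ¬ a i < b i := by
      intro a ha b hb hab i h1 h2 hlt
      have ha2 := ha.2.1 i h1 h2
      have hb2 := hb.2.1 i h1 h2
      obtain ⟨v, v', c1, c2, c3, c4⟩ := exists_lab hn (t := a i) h1 h2 ha2.2.2
      have e1 : Inv n b v v' := ⟨i, a i, h1, h2, ha2.1, ha2.2.2, hlt, c4⟩
      have e2 := (hinv b hb v v' c1 c2 c3).mpr e1
      rw [← hab] at e2
      obtain ⟨i', t', d1, d2, d3, d4, d5, d6⟩ := (hinv a ha v v' c1 c2 c3).mp e2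
      have ha2' := ha.2.1 i' d1 d2
      obtain ⟨f1, f2⟩ := lab_unique hn h1 h2 d1 d2 ha2.1 (by omega) d3 (by omega) ha2.2.2 d4 c4 d6
      rw [← f1, ← f2] at d5
      exact lt_irrefl _ d5
    intro a ha b hb hab
    funext i
    by_cases hi : 1 ≤ i ∧ i < n
    · have k1 := key a ha b hb hab i hi.1 hi.2
      have k2 := key b hb a ha hab.symm i hi.1 hi.2
      omega
    · rw [ha.1 i hi, hb.1 i hi]
  · intro a _ v v' hne
    change (wp (U a))⁻¹ v < (wp (U a))⁻¹ v' ↔ ¬ ((wp (U a))⁻¹ v' < (wp (U a))⁻¹ v)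
    have : (wp (U a))⁻¹ v ≠ (wp (U a))⁻¹ v' := fun h => hne ((wp (U a))⁻¹.injective h)
    omega

theorem W_nonempty (n p : ℕ) : (W n p).Nonempty :=
  ⟨wk n p [], wk_mem (good_alt n p) List.nil_prefix⟩

/-- the first `p` blocks are a prefix -/
theorem alt_prefix_alt (n : ℕ) {m m' : ℕ} (h : m ≤ m') : alt n m <+: alt n m' := by
  induction m', h using Nat.le_induction with
  | base => exact List.prefix_refl _
  | succ k _ ih => rw [alt_succ]; exact ih.trans (List.prefix_append _ _)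

theorem wk_alt {n p i : ℕ} (h1 : 1 ≤ i) (h2 : i < n) {t : ℤ} (hti : t % 2 = (i : ℤ) % 2) :
    t < wk n p (alt n p) i ↔ t ≤ p := by
  rw [wk_in h1 h2, count_alt p h1 h2]
  rcases base_cases i with ⟨hb, hb'⟩ | ⟨hb, hb'⟩ <;> rw [hb'] <;> omega

/-- the majority relation on pairs `v < v'` -/
theorem maj_pair {n p : ℕ} (hn : 3 ≤ n) (hp1 : 1 ≤ p) (hp : 2 * p ≤ n) {v v' : ℕ} (hv : 1 ≤ v)
    (hv' : v' ≤ n) (hlt : v < v') :
    (maj (dom n p) v v' ↔ before (wp (alt n p)) v v') ∧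
    (maj (dom n p) v' v ↔ before (wp (alt n p)) v' v) := by
  obtain ⟨F, hdom, hinj, hFinv, hFneg⟩ := exists_param hn hp
  have hu := before_iff hn hp (good_alt n p) (alt n p) (alt_prefix_alt n (by omega)) v v' hv hv' hlt
  have hun : before (wp (alt n p)) v v' ↔ ¬ before (wp (alt n p)) v' v := by
    unfold before
    have : (wp (alt n p))⁻¹ v ≠ (wp (alt n p))⁻¹ v' := fun h => by
      have := (wp (alt n p))⁻¹.injective h; omega
    omega
  have hcard1 : {x | x ∈ dom n p ∧ before x v' v}.ncard = {a | a ∈ W n p ∧ Inv n a v v'}.ncard := by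
    have : {x | x ∈ dom n p ∧ before x v' v} = F '' {a | a ∈ W n p ∧ Inv n a v v'} := by
      ext x
      constructor
      · rintro ⟨hx, hb⟩
        rw [hdom] at hx
        obtain ⟨a, ha, rfl⟩ := hx
        exact ⟨a, ⟨ha, (hFinv a ha v v' hv hv' hlt).mp hb⟩, rfl⟩
      · rintro ⟨a, ⟨ha, hi⟩, rfl⟩
        exact ⟨by rw [hdom]; exact ⟨a, ha, rfl⟩, (hFinv a ha v v' hv hv' hlt).mpr hi⟩
    rw [this, (hinj.mono (fun a h => h.1)).ncard_image]
  have hcard2 : {x | x ∈ dom n p ∧ before x v v'}.ncard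
      = {a | a ∈ W n p ∧ ¬ Inv n a v v'}.ncard := by
    have : {x | x ∈ dom n p ∧ before x v v'} = F '' {a | a ∈ W n p ∧ ¬ Inv n a v v'} := by
      ext x
      constructor
      · rintro ⟨hx, hb⟩
        rw [hdom] at hx
        obtain ⟨a, ha, rfl⟩ := hx
        exact ⟨a, ⟨ha, fun hi => (hFneg a ha v v' hlt.ne).mp hb
          ((hFinv a ha v v' hv hv' hlt).mpr hi)⟩, rfl⟩
      · rintro ⟨a, ⟨ha, hi⟩, rfl⟩
        exact ⟨by rw [hdom]; exact ⟨a, ha, rfl⟩, (hFneg a ha v v' hlt.ne).mpr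
          (fun hb => hi ((hFinv a ha v v' hv hv' hlt).mp hb))⟩
    rw [this, (hinj.mono (fun a h => h.1)).ncard_image]
  unfold maj
  rw [hcard1, hcard2, hun, hu]
  by_cases hlab : ∃ (i : ℕ) (t : ℤ), 1 ≤ i ∧ i < n ∧ 1 ≤ t ∧ t ≤ 2 * p ∧ t % 2 = (i : ℤ) % 2 ∧
      Lab n i t v v'
  · obtain ⟨i, t, h1, h2, h3, h4, h5, h6⟩ := hlab
    have hI : ∀ a ∈ W n p, (Inv n a v v' ↔ t < a i) := by
      intro a ha
      constructor
      · rintro ⟨i', t', d1, d2, d3, d4, d5, d6⟩
        have ha2' := ha.2.1 i' d1 d2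
        obtain ⟨f1, f2⟩ := lab_unique hn h1 h2 d1 d2 h3 (by omega) d3 (by omega) h5 d4 h6 d6
        rw [f1, f2]; exact d5
      · intro h
        exact ⟨i, t, h1, h2, h3, h5, h, h6⟩
    have s1 : {a | a ∈ W n p ∧ Inv n a v v'} = {a | a ∈ W n p ∧ t < a i} := by
      ext a; exact and_congr_right (fun ha => hI a ha)
    have s2 : {a | a ∈ W n p ∧ ¬ Inv n a v v'} = {a | a ∈ W n p ∧ ¬ t < a i} := by
      ext a; exact and_congr_right (fun ha => not_congr (hI a ha))
    rw [s1, s2, hI _ (wk_mem (good_alt n p) (alt_prefix_alt n (by omega))), wk_alt h1 h2 h5]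
    rcases le_or_gt t (p : ℤ) with htp | htp
    · have := count_low hn h1 h2 h3 htp h5
      constructor
      · constructor
        · intro h; omega
        · intro h; exact absurd htp h
      · constructor
        · intro _; exact htp
        · intro _; exact this
    · have := count_high hn h1 h2 htp h4 h5
      constructor
      · constructor
        · intro _; omega
        · intro _; exact this
      · constructor
        · intro h; omega
        · intro h; omega
  · have hI : ∀ a ∈ W n p, ¬ Inv n a v v' := by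
      rintro a ha ⟨i, t, d1, d2, d3, d4, d5, d6⟩
      have ha2 := ha.2.1 i d1 d2
      exact hlab ⟨i, t, d1, d2, d3, by omega, d4, d6⟩
    have s1 : {a | a ∈ W n p ∧ Inv n a v v'} = ∅ := by
      ext a
      simp only [Set.mem_empty_iff_false, iff_false]
      rintro ⟨ha, hi⟩
      exact hI a ha hi
    have s2 : {a | a ∈ W n p ∧ ¬ Inv n a v v'} = W n p := by
      ext a
      exact ⟨fun h => h.1, fun h => ⟨h, hI a h⟩⟩
    have hpos : 0 < (W n p).ncard := (Set.ncard_pos (finite_W n p)).mpr (W_nonempty n p)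
    have hnot := hI _ (wk_mem (good_alt n p) (alt_prefix_alt n (show p ≤ 2 * p by omega)))
    rw [s1, s2, Set.ncard_empty]
    constructor
    · constructor
      · intro _; exact hnot
      · intro _; exact hpos
    · constructor
      · intro h; omega
      · intro h; exact absurd h hnot

/-- the domain is finite -/
theorem finite_dom {n p : ℕ} (hn : 3 ≤ n) (hp : 2 * p ≤ n) : (dom n p).Finite := by
  obtain ⟨F, hdom, -⟩ := exists_param hn hp
  rw [hdom]
  exact (finite_W n p).image F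

theorem main {n p : ℕ} (hn : 3 ≤ n) (hp1 : 1 ≤ p) (hp : 2 * p ≤ n) {a b : ℕ} (ha1 : 1 ≤ a)
    (ha2 : a ≤ n) (hb1 : 1 ≤ b) (hb2 : b ≤ n) (hab : a ≠ b) :
    maj (dom n p) a b ↔ before (wp (alt n p)) a b := by
  rcases lt_or_gt_of_ne hab with h | h
  · exact (maj_pair hn hp1 hp ha1 hb2 h).1
  · exact (maj_pair hn hp1 hp hb1 ha2 h).2

end Pool.Agent.X234.CD
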