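import Pool.Agent.X234.CD.Words

/-!
# The permutation of a walk
-/

namespace Pool.Agent.X234.CD

/-- folding the cycle of length `2n` onto `1, …, n` -/
def fold (n : ℕ) (z : ℤ) : ℤ :=
  if z % (2 * n) ≤ n then z % (2 * n) else 2 * n + 1 - z % (2 * n)

theorem fold_congr {n : ℕ} {z z' : ℤ} (k : ℤ) (h : z' = z + 2 * n * k) : fold n z' = fold n z := by
  unfold fold
  have : z' % (2 * n) = z % (2 * n) := by rw [h]; exact Int.add_mul_emod_self_left _ _ _
  rw [this]

theorem fold_range {n : ℕ} (hn : 1 ≤ n) {z : ℤ} (hz : z % 2 = 1) : 1 ≤ fold n z ∧ fold n z ≤ n := by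
  have h1 := Int.emod_nonneg z (show (2 * (n : ℤ)) ≠ 0 by omega)
  have h2 := Int.emod_lt_of_pos z (show (0 : ℤ) < 2 * (n : ℤ) by omega)
  have h3 := Int.emod_add_mul_ediv z (2 * n)
  unfold fold
  set r := z % (2 * (n : ℤ)) with hr
  have h4 : r % 2 = 1 := by
    have : z = r + 2 * ((n : ℤ) * (z / (2 * n))) := by linear_combination (-1 : ℤ) * h3
    generalize (n : ℤ) * (z / (2 * n)) = m at this
    omega
  split_ifs with h <;> omega

theorem fold_inj {n : ℕ} (hn : 1 ≤ n) {z z' : ℤ} (hz : z % 2 = 1) (hz' : z' % 2 = 1)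
    (h : fold n z = fold n z') : ∃ k : ℤ, z - z' = 2 * (n * k) := by
  have h1 := Int.emod_nonneg z (show (2 * (n : ℤ)) ≠ 0 by omega)
  have h2 := Int.emod_lt_of_pos z (show (0 : ℤ) < 2 * (n : ℤ) by omega)
  have h3 := Int.emod_add_mul_ediv z (2 * n)
  have h1' := Int.emod_nonneg z' (show (2 * (n : ℤ)) ≠ 0 by omega)
  have h2' := Int.emod_lt_of_pos z' (show (0 : ℤ) < 2 * (n : ℤ) by omega)
  have h3' := Int.emod_add_mul_ediv z' (2 * n)
  unfold fold at h
  have e : z % (2 * (n : ℤ)) = z' % (2 * (n : ℤ)) := by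
    have h4 : (z % (2 * (n : ℤ))) % 2 = 1 := by
      have : z = z % (2 * (n : ℤ)) + 2 * ((n : ℤ) * (z / (2 * n))) := by
        conv_lhs => rw [← h3]
        ring
      generalize (n : ℤ) * (z / (2 * n)) = m at this
      omega
    have h4' : (z' % (2 * (n : ℤ))) % 2 = 1 := by
      have : z' = z' % (2 * (n : ℤ)) + 2 * ((n : ℤ) * (z' / (2 * n))) := by
        conv_lhs => rw [← h3']
        ring
      generalize (n : ℤ) * (z' / (2 * n)) = m at this
      omega
    split_ifs at h <;> omega
  refine ⟨z / (2 * n) - z' / (2 * n), ?_⟩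
  linear_combination (-1 : ℤ) * h3 + h3' + e

theorem fold_of_le {n : ℕ} {z : ℤ} (h0 : 0 ≤ z) (h : z ≤ n) (hn : 1 ≤ n) : fold n z = z := by
  unfold fold
  rw [Int.emod_eq_of_lt h0 (by omega), if_pos h]

theorem fold_of_gt {n : ℕ} {z : ℤ} (h0 : (n : ℤ) < z) (h : z < 2 * n) :
    fold n z = 2 * n + 1 - z := by
  unfold fold
  rw [Int.emod_eq_of_lt (by omega) h, if_neg (by omega)]

/-- the value at position `j` of the permutation of the walk `a` -/
def X (n : ℕ) (a : ℕ → ℤ) (j : ℕ) : ℤ :=
  if a j < a (j - 1) then fold n (1 + j - a j) else fold n (2 - j - a (j - 1))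

theorem X_bottom {n p : ℕ} (hn : 3 ≤ n) {j : ℕ} (h1 : 1 ≤ j) (h2 : j ≤ n) :
    X n (wk n p []) j = j := by
  unfold X
  rcases Nat.lt_or_ge j n with hjn | hjn
  · rw [wk_in h1 hjn]
    simp only [List.count_nil, Nat.cast_zero, mul_zero, add_zero]
    rcases Nat.lt_or_ge 1 j with hj1 | hj1
    · rw [wk_in (show 1 ≤ j - 1 by omega) (by omega)]
      simp only [List.count_nil, Nat.cast_zero, mul_zero, add_zero]
      rcases base_cases j with ⟨hb, hb'⟩ | ⟨hb, hb'⟩
      · rcases base_cases (j - 1) with ⟨hc, hc'⟩ | ⟨hc, hc'⟩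
        · omega
        · rw [hb', hc', if_pos (by norm_num)]
          rw [fold_of_le (by omega) (by omega) (by omega)]
          ring
      · rcases base_cases (j - 1) with ⟨hc, hc'⟩ | ⟨hc, hc'⟩
        · rw [hb', hc', if_neg (by norm_num)]
          rw [fold_congr (z := 2 * n + 1 - j) (-1) (by ring), fold_of_gt (by omega) (by omega)]
          ring
        · omega
    · have : j = 1 := by omega
      subst this
      rw [wk_out (by omega)]
      rcases base_cases 1 with ⟨hb, hb'⟩ | ⟨hb, hb'⟩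
      · rw [hb', if_pos (by omega)]
        rw [fold_of_le (by omega) (by omega) (by omega)]
        norm_num
      · omega
  · have : j = n := by omega
    subst this
    rw [wk_out (by omega), wk_in (show 1 ≤ j - 1 by omega) (by omega)]
    simp only [List.count_nil, Nat.cast_zero, mul_zero, add_zero]
    rcases base_cases (j - 1) with ⟨hc, hc'⟩ | ⟨hc, hc'⟩
    · rw [hc', if_neg (by omega)]
      rw [fold_congr (z := (j : ℤ) + 1) (-1) (by ring)]
      rw [fold_of_gt (by omega) (by omega)]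
      ring
    · rw [hc', if_neg (by omega)]
      rw [fold_congr (z := (j : ℤ)) (-1) (by ring)]
      rw [fold_of_le (by omega) (by omega) (by omega)]

/-- local minimum property for an addable letter -/
theorem local_min {n p : ℕ} {a : ℕ → ℤ} (ha : a ∈ W n p) {i : ℕ} (h1 : 1 ≤ i) (h2 : i < n)
    (ha' : Function.update a i (a i + 2) ∈ W n p) :
    (1 ≤ i - 1 → a (i - 1) = a i + 1) ∧ (i + 1 < n → a (i + 1) = a i + 1) ∧ a i ≤ 2 * p := by
  refine ⟨fun h => ?_, fun h => ?_, ?_⟩
  · have e1 := ha.2.2 (i - 1) h (by omega)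
    have e2 := ha'.2.2 (i - 1) h (by omega)
    rw [show i - 1 + 1 = i by omega] at e1 e2
    rw [Function.update_self, Function.update_of_ne (by omega)] at e2
    omega
  · have e1 := ha.2.2 i h1 h
    have e2 := ha'.2.2 i h1 h
    rw [Function.update_self, Function.update_of_ne (by omega)] at e2
    omega
  · have := (ha'.2.1 i h1 h2).2.1
    rw [Function.update_self] at this
    omega

theorem X_left {n p : ℕ} {a : ℕ → ℤ} (ha : a ∈ W n p) {i : ℕ} (h1 : 1 ≤ i) (h2 : i < n)
    (ha' : Function.update a i (a i + 2) ∈ W n p) : X n a i = fold n (1 + i - a i) := by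
  obtain ⟨m1, m2, m3⟩ := local_min ha h1 h2 ha'
  unfold X
  rw [if_pos]
  rcases Nat.lt_or_ge 1 i with h | h
  · rw [m1 (by omega)]; omega
  · rw [ha.1 (i - 1) (by omega)]
    have := (ha.2.1 i h1 h2).2.1
    omega

theorem X_right {n p : ℕ} {a : ℕ → ℤ} (ha : a ∈ W n p) {i : ℕ} (h1 : 1 ≤ i) (h2 : i < n)
    (ha' : Function.update a i (a i + 2) ∈ W n p) : X n a (i + 1) = fold n (1 - i - a i) := by
  obtain ⟨m1, m2, m3⟩ := local_min ha h1 h2 ha'
  unfold X
  rw [show i + 1 - 1 = i by omega, if_neg]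
  · congr 1; push_cast; ring
  · rcases Nat.lt_or_ge (i + 1) n with h | h
    · rw [m2 h]; omega
    · rw [ha.1 (i + 1) (by omega)]
      have := (ha.2.1 i h1 h2).2.1
      omega

theorem X_step {n p : ℕ} {a : ℕ → ℤ} (ha : a ∈ W n p) {i : ℕ} (h1 : 1 ≤ i) (h2 : i < n)
    (ha' : Function.update a i (a i + 2) ∈ W n p) {j : ℕ} (hj1 : 1 ≤ j) (hj2 : j ≤ n) :
    X n (Function.update a i (a i + 2)) j = X n a (s i j) := by
  obtain ⟨m1, m2, m3⟩ := local_min ha h1 h2 ha'
  have xl := X_left ha h1 h2 ha'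
  have xr := X_right ha h1 h2 ha'
  by_cases hji : j = i
  · subst hji
    rw [show s j j = j + 1 from Equiv.swap_apply_left _ _, xr]
    unfold X
    rw [Function.update_self]
    rcases Nat.lt_or_ge 1 j with h | h
    · rw [Function.update_of_ne (by omega), m1 (by omega), if_neg (by omega)]
      congr 1; ring
    · have : j = 1 := by omega
      subst this
      rw [Function.update_of_ne (by omega), ha.1 (1 - 1) (by omega), if_pos (by omega)]
      congr 1; push_cast; ring
  · by_cases hji' : j = i + 1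
    · subst hji'
      rw [show s i (i + 1) = i from Equiv.swap_apply_right _ _, xl]
      unfold X
      rw [show i + 1 - 1 = i by omega, Function.update_self, Function.update_of_ne (by omega)]
      rcases Nat.lt_or_ge (i + 1) n with h | h
      · rw [m2 h, if_pos (by omega)]
        congr 1; push_cast; ring
      · have hin : n = i + 1 := by omega
        rw [ha.1 (i + 1) (by omega), if_neg (by omega)]
        apply fold_congr (-1)
        rw [hin]; push_cast; ring
    · rw [show s i j = j from Equiv.swap_apply_of_ne_of_ne hji hji']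
      unfold X
      rw [Function.update_of_ne hji, Function.update_of_ne (by omega)]

/-- the product of a prefix is the permutation of its walk -/
theorem wp_eq {n p : ℕ} (hn : 3 ≤ n) {w : List ℕ} (hw : Good n p w) : ∀ u : List ℕ, u <+: w →
    ∀ j, 1 ≤ j → j ≤ n → ((wp u j : ℕ) : ℤ) = X n (wk n p u) j := by
  intro u
  induction u using List.reverseRecOn with
  | nil =>
    intro _ j h1 h2
    rw [X_bottom hn h1 h2]
    simp [wp]
  | append_singleton u i ih =>
    intro hu j h1 h2
    have hu' : u <+: w := (List.prefix_append _ _).trans hu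
    have hi := hw.1 i (hu.subset (by simp))
    have e : wp (u ++ [i]) j = wp u (s i j) := by simp [wp]
    have hj : 1 ≤ s i j ∧ s i j ≤ n := by
      unfold s
      rw [Equiv.swap_apply_def]
      split_ifs <;> omega
    have hW : Function.update (wk n p u) i (wk n p u i + 2) ∈ W n p := by
      rw [← wk_snoc u hi.1 hi.2]; exact wk_mem hw hu
    rw [e, ih hu' _ hj.1 hj.2, wk_snoc u hi.1 hi.2]
    exact (X_step (wk_mem hw hu') hi.1 hi.2 hW h1 h2).symm

theorem wp_out {n : ℕ} : ∀ u : List ℕ, (∀ i ∈ u, 1 ≤ i ∧ i < n) → ∀ j, ¬ (1 ≤ j ∧ j ≤ n) →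
    wp u j = j := by
  intro u
  induction u using List.reverseRecOn with
  | nil => intro _ j _; simp [wp]
  | append_singleton u i ih =>
    intro hu j hj
    have e : wp (u ++ [i]) j = wp u (s i j) := by simp [wp]
    have hi := hu i (by simp)
    have : s i j = j := by
      unfold s
      rw [Equiv.swap_apply_of_ne_of_ne (by omega) (by omega)]
    rw [e, this]
    exact ih (fun k hk => hu k (by simp [hk])) j hj

/-! ### labels -/

/-- the two values exchanged at column `i`, level `t` -/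
def Lab (n : ℕ) (i : ℕ) (t : ℤ) (v v' : ℕ) : Prop :=
  (fold n (1 + i - t) = v ∧ fold n (1 - i - t) = v') ∨
  (fold n (1 + i - t) = v' ∧ fold n (1 - i - t) = v)

theorem Lab.symm {n i : ℕ} {t : ℤ} {v v' : ℕ} (h : Lab n i t v v') : Lab n i t v' v := by
  rcases h with h | h
  · exact Or.inr h
  · exact Or.inl h

theorem eq_zero_of_small {n : ℕ} {x k : ℤ} (h : x = n * k) (h1 : x < n) (h2 : -(n : ℤ) < x) :
    x = 0 := by
  apply Int.eq_zero_of_abs_lt_dvd (m := (n : ℤ)) ⟨k, h⟩
  rw [abs_lt]; exact ⟨h2, h1⟩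

theorem lab_unique {n : ℕ} (hn : 3 ≤ n) {i i' : ℕ} {t t' : ℤ} {v v' : ℕ}
    (hi1 : 1 ≤ i) (hi2 : i < n) (hi1' : 1 ≤ i') (hi2' : i' < n)
    (ht1 : 1 ≤ t) (ht2 : t ≤ n) (ht1' : 1 ≤ t') (ht2' : t' ≤ n)
    (hp : t % 2 = (i : ℤ) % 2) (hp' : t' % 2 = (i' : ℤ) % 2)
    (h : Lab n i t v v') (h' : Lab n i' t' v v') : i = i' ∧ t = t' := by
  have o1 : (1 + (i : ℤ) - t) % 2 = 1 := by omega
  have o2 : (1 - (i : ℤ) - t) % 2 = 1 := by omega
  have o1' : (1 + (i' : ℤ) - t') % 2 = 1 := by omega
  have o2' : (1 - (i' : ℤ) - t') % 2 = 1 := by omega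
  have key : (fold n (1 + i - t) = fold n (1 + i' - t') ∧ fold n (1 - i - t) = fold n (1 - i' - t')) ∨
      (fold n (1 + i - t) = fold n (1 - i' - t') ∧ fold n (1 - i - t) = fold n (1 + i' - t')) := by
    rcases h with ⟨a, b⟩ | ⟨a, b⟩ <;> rcases h' with ⟨c, d⟩ | ⟨c, d⟩
    · left; exact ⟨by rw [a, c], by rw [b, d]⟩
    · right; exact ⟨by rw [a, d], by rw [b, c]⟩
    · right; exact ⟨by rw [a, d], by rw [b, c]⟩
    · left; exact ⟨by rw [a, c], by rw [b, d]⟩
  rcases key with ⟨a, b⟩ | ⟨a, b⟩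
  · obtain ⟨k1, e1⟩ := fold_inj (by omega) o1 o1' a
    obtain ⟨k2, e2⟩ := fold_inj (by omega) o2 o2' b
    have e3 : t' - t = n * (k1 + k2) := by
      have : 2 * (t' - t) = 2 * (n * k1) + 2 * (n * k2) := by rw [← e1, ← e2]; ring
      rw [mul_add]; omega
    have e4 := eq_zero_of_small e3 (by omega) (by omega)
    have e5 : (i : ℤ) - i' = n * (2 * k1) := by
      have : (i : ℤ) - i' = 2 * (n * k1) := by rw [← e1]; omega
      rw [this]; ring
    have e6 := eq_zero_of_small e5 (by omega) (by omega)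
    exact ⟨by omega, by omega⟩
  · exfalso
    obtain ⟨k1, e1⟩ := fold_inj (by omega) o1 o2' a
    obtain ⟨k2, e2⟩ := fold_inj (by omega) o2 o1' b
    have e3 : t' - t = n * (k1 + k2) := by
      have : 2 * (t' - t) = 2 * (n * k1) + 2 * (n * k2) := by rw [← e1, ← e2]; ring
      rw [mul_add]; omega
    have e4 := eq_zero_of_small e3 (by omega) (by omega)
    have e5 : (i : ℤ) + i' = 2 * (n * k1) := by rw [← e1]; omega
    have e6 : (i : ℤ) + i' - n = n * (2 * k1 - 1) := by rw [e5]; ring
    have e7 := eq_zero_of_small e6 (by omega) (by omega)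
    have e8 : (n : ℤ) = 2 * (n * k1) := by omega
    have e9 : (n : ℤ) * (2 * k1 - 1) = 0 := by linarith
    rcases mul_eq_zero.mp e9 with h0 | h0 <;> omega

/-- inversion status from the walk -/
def Inv (n : ℕ) (a : ℕ → ℤ) (v v' : ℕ) : Prop :=
  ∃ (i : ℕ) (t : ℤ), 1 ≤ i ∧ i < n ∧ 1 ≤ t ∧ t % 2 = (i : ℤ) % 2 ∧ t < a i ∧ Lab n i t v v'

theorem swap_lt {i q q' : ℕ} (_h : q ≠ q') :
    s i q < s i q' ↔ (q < q' ∧ ¬ (q = i ∧ q' = i + 1)) ∨ (q = i + 1 ∧ q' = i) := by
  unfold s
  rw [Equiv.swap_apply_def, Equiv.swap_apply_def]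
  split_ifs <;> omega

theorem before_iff {n p : ℕ} (hn : 3 ≤ n) (hp : 2 * p ≤ n) {w : List ℕ} (hw : Good n p w) :
    ∀ u : List ℕ, u <+: w → ∀ v v', 1 ≤ v → v' ≤ n → v < v' →
      (before (wp u) v' v ↔ Inv n (wk n p u) v v') := by
  intro u
  induction u using List.reverseRecOn with
  | nil =>
    intro _ v v' h1 h2 h3
    constructor
    · intro h
      simp [before, wp] at h
      omega
    · rintro ⟨i, t, hi1, hi2, ht1, ht2, ht3, -⟩
      rw [wk_in hi1 hi2] at ht3
      rcases base_cases i with ⟨hb, hb'⟩ | ⟨hb, hb'⟩ <;> rw [hb'] at ht3 <;> simp at ht3 <;> omega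
  | append_singleton u i ih =>
    intro hu v v' h1 h2 h3
    have hu' : u <+: w := (List.prefix_append _ _).trans hu
    have hi := hw.1 i (hu.subset (by simp))
    have hW0 := wk_mem hw hu'
    have hW : Function.update (wk n p u) i (wk n p u i + 2) ∈ W n p := by
      rw [← wk_snoc u hi.1 hi.2]; exact wk_mem hw hu
    have IH := ih hu' v v' h1 h2 h3
    set a := wk n p u with ha
    have hmin := local_min hW0 hi.1 hi.2 hW
    have hai := hW0.2.1 i hi.1 hi.2
    rw [wk_snoc u hi.1 hi.2, ← ha]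
    have hq : ∀ x : ℕ, (wp (u ++ [i]))⁻¹ x = s i ((wp u)⁻¹ x) := by
      intro x
      have : wp (u ++ [i]) = wp u * s i := by simp [wp]
      rw [this, mul_inv_rev, Equiv.Perm.mul_apply]
      unfold s
      rw [Equiv.swap_inv]
    have hne : (wp u)⁻¹ v' ≠ (wp u)⁻¹ v := by
      intro h; have := (wp u)⁻¹.injective h; omega
    -- values at the two positions
    have hx1 : ((wp u i : ℕ) : ℤ) = fold n (1 + i - a i) := by
      rw [wp_eq hn hw u hu' i hi.1 (by omega)]
      exact X_left hW0 hi.1 hi.2 hW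
    have hx2 : ((wp u (i + 1) : ℕ) : ℤ) = fold n (1 - i - a i) := by
      rw [wp_eq hn hw u hu' (i + 1) (by omega) (by omega)]
      exact X_right hW0 hi.1 hi.2 hW
    have hinv : ∀ x y : ℕ, (wp u)⁻¹ x = y → wp u y = x := by
      intro x y h; rw [← h]; simp
    unfold before at IH ⊢
    rw [hq, hq, swap_lt hne]
    have hmono : ∀ i', a i' ≤ Function.update a i (a i + 2) i' := by
      intro i'
      by_cases h : i' = i
      · subst h; rw [Function.update_self]; omega
      · rw [Function.update_of_ne h]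
    constructor
    · rintro (⟨hlt, -⟩ | ⟨e1, e2⟩)
      · obtain ⟨i', t, b1, b2, b3, b4, b5, b6⟩ := IH.mp hlt
        exact ⟨i', t, b1, b2, b3, b4, b5.trans_le (hmono i'), b6⟩
      · refine ⟨i, a i, hi.1, hi.2, hai.1, hai.2.2, by rw [Function.update_self]; omega, Or.inl ⟨?_, ?_⟩⟩
        · rw [← hx1, hinv v i e2]
        · rw [← hx2, hinv v' (i + 1) e1]
    · rintro ⟨i', t, b1, b2, b3, b4, b5, b6⟩
      by_cases hta : t < a i'
      · left
        have hlt := IH.mpr ⟨i', t, b1, b2, b3, b4, hta, b6⟩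
        refine ⟨hlt, ?_⟩
        rintro ⟨e1, e2⟩
        have hlab : Lab n i (a i) v v' :=
          Or.inr ⟨by rw [← hx1, hinv v' i e1], by rw [← hx2, hinv v (i + 1) e2]⟩
        have hai' := hW0.2.1 i' b1 b2
        obtain ⟨e3, e4⟩ := lab_unique hn hi.1 hi.2 b1 b2 hai.1 (by omega) b3 (by omega) hai.2.2 b4
          hlab b6
        rw [← e3, ← e4] at hta
        exact lt_irrefl _ hta
      · right
        push Not at hta
        have hii : i' = i := by
          by_contra hne'
          rw [Function.update_of_ne hne'] at b5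
          omega
        subst hii
        rw [Function.update_self] at b5
        have htt : t = a i' := by omega
        subst htt
        have hnot : ¬ ((wp u)⁻¹ v' < (wp u)⁻¹ v) := by
          intro hlt
          obtain ⟨i'', t'', c1, c2, c3, c4, c5, c6⟩ := IH.mp hlt
          have hai'' := hW0.2.1 i'' c1 c2
          obtain ⟨e3, e4⟩ := lab_unique hn b1 b2 c1 c2 hai.1 (by omega) c3 (by omega) hai.2.2 c4
            b6 c6
          rw [← e3, ← e4] at c5
          exact lt_irrefl _ c5
        have hinv2 : ∀ x y : ℕ, wp u y = x → (wp u)⁻¹ x = y := by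
          intro x y h; rw [← h]; simp
        rcases b6 with ⟨d1, d2⟩ | ⟨d1, d2⟩
        · have e1 : wp u i' = v := by
            have : ((wp u i' : ℕ) : ℤ) = v := by rw [hx1, d1]
            exact_mod_cast this
          have e2 : wp u (i' + 1) = v' := by
            have : ((wp u (i' + 1) : ℕ) : ℤ) = v' := by rw [hx2, d2]
            exact_mod_cast this
          exact ⟨hinv2 _ _ e2, hinv2 _ _ e1⟩
        · exfalso
          have e1 : wp u i' = v' := by
            have : ((wp u i' : ℕ) : ℤ) = v' := by rw [hx1, d1]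
            exact_mod_cast this
          have e2 : wp u (i' + 1) = v := by
            have : ((wp u (i' + 1) : ℕ) : ℤ) = v := by rw [hx2, d2]
            exact_mod_cast this
          apply hnot
          rw [hinv2 _ _ e2, hinv2 _ _ e1]
          omega

end Pool.Agent.X234.CD
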