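import Pool.Agent.X234.CD.Defs

/-!
# Words of the commutation class and walks
-/

namespace Pool.Agent.X234.CD

/-- the first level of column `i` -/
def base (i : ℕ) : ℤ := 2 - ((i % 2 : ℕ) : ℤ)

/-- the walk of a word -/
def wk (n p : ℕ) (u : List ℕ) : ℕ → ℤ := fun i =>
  if 1 ≤ i ∧ i < n then base i + 2 * (u.count i : ℤ) else 2 * p + 5

/-- the set of walks -/
def W (n p : ℕ) : Set (ℕ → ℤ) := {a | (∀ i, ¬(1 ≤ i ∧ i < n) → a i = 2 * p + 5) ∧
  (∀ i, 1 ≤ i → i < n → 1 ≤ a i ∧ a i ≤ 2 * p + 2 ∧ a i % 2 = (i : ℤ) % 2) ∧
  (∀ i, 1 ≤ i → i + 1 < n → a (i + 1) = a i + 1 ∨ a (i + 1) = a i - 1)}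

/-- words whose prefixes give walks -/
def Good (n p : ℕ) (w : List ℕ) : Prop :=
  (∀ i ∈ w, 1 ≤ i ∧ i < n) ∧ (∀ i, 1 ≤ i → i < n → w.count i = p) ∧
  ∀ u, u <+: w → ∀ i, 1 ≤ i → i + 1 < n →
    wk n p u (i + 1) = wk n p u i + 1 ∨ wk n p u (i + 1) = wk n p u i - 1

theorem wk_in {n p : ℕ} {u : List ℕ} {i : ℕ} (h1 : 1 ≤ i) (h2 : i < n) :
    wk n p u i = base i + 2 * (u.count i : ℤ) := by
  unfold wk; rw [if_pos ⟨h1, h2⟩]

theorem wk_out {n p : ℕ} {u : List ℕ} {i : ℕ} (h : ¬ (1 ≤ i ∧ i < n)) :
    wk n p u i = 2 * p + 5 := by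
  unfold wk; rw [if_neg h]

theorem base_cases (i : ℕ) : (i % 2 = 1 ∧ base i = 1) ∨ (i % 2 = 0 ∧ base i = 2) := by
  unfold base
  rcases Nat.mod_two_eq_zero_or_one i with h | h
  · right; rw [h]; exact ⟨rfl, by norm_num⟩
  · left; rw [h]; exact ⟨rfl, by norm_num⟩

theorem wk_mem {n p : ℕ} {w u : List ℕ} (hw : Good n p w) (hu : u <+: w) : wk n p u ∈ W n p := by
  obtain ⟨h1, h2, h3⟩ := hw
  refine ⟨fun i hi => wk_out hi, fun i hi1 hi2 => ?_, fun i hi1 hi2 => h3 u hu i hi1 hi2⟩
  rw [wk_in hi1 hi2]
  have hc : u.count i ≤ p := by rw [← h2 i hi1 hi2]; exact hu.sublist.count_le _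
  rcases base_cases i with ⟨hb, hb'⟩ | ⟨hb, hb'⟩ <;> rw [hb'] <;> refine ⟨by omega, by omega, by omega⟩

theorem prefix_cases {u l t : List ℕ} (h : u <+: l ++ t) :
    u <+: l ∨ ∃ c, u = l ++ c ∧ c <+: t := by
  obtain ⟨r, hr⟩ := h
  rcases List.append_eq_append_iff.mp hr with ⟨a', h1, h2⟩ | ⟨c', h1, h2⟩
  · exact Or.inl ⟨a', h1.symm⟩
  · exact Or.inr ⟨c', h1, ⟨r, h2.symm⟩⟩

theorem wk_congr {n p : ℕ} {u v : List ℕ} {i : ℕ} (h : u.count i = v.count i) :
    wk n p u i = wk n p v i := by
  unfold wk; rw [h]

theorem good_step {n p : ℕ} {w w' : List ℕ} (hw : Good n p w) (h : CommStep w w') :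
    Good n p w' := by
  obtain ⟨l, r, a, b, hab⟩ := h
  obtain ⟨h1, h2, h3⟩ := hw
  have hperm : (l ++ b :: a :: r).Perm (l ++ a :: b :: r) := (List.Perm.swap a b r).append_left l
  refine ⟨fun i hi => h1 i (hperm.mem_iff.mp hi), fun i hi1 hi2 => ?_, ?_⟩
  · rw [hperm.count_eq]; exact h2 i hi1 hi2
  · intro u hu i hi1 hi2
    rcases prefix_cases hu with h | ⟨c, rfl, hc⟩
    · exact h3 u (h.trans (List.prefix_append _ _)) i hi1 hi2
    · rcases c with _ | ⟨x, c⟩
      · exact h3 _ (by rw [List.append_nil]; exact List.prefix_append _ _) i hi1 hi2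
      · rw [List.cons_prefix_cons] at hc
        obtain ⟨rfl, hc⟩ := hc
        rcases c with _ | ⟨y, c⟩
        · -- `l ++ [x]`
          by_cases hx : i = x ∨ i + 1 = x
          · have hcnt : ∀ j, j ≠ a → (l ++ [x]).count j = (l ++ [a, x]).count j := by
              intro j hj
              simp only [List.count_append, List.count_cons, List.count_nil]
              have : ¬ (a == j) = true := by simpa using fun h => hj h.symm
              simp [this]
            have hp : l ++ [a, x] <+: l ++ a :: x :: r := by
              rw [List.prefix_append_right_inj]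
              exact ⟨r, rfl⟩
            have := h3 _ hp i hi1 hi2
            rw [wk_congr (hcnt i (by omega)), wk_congr (hcnt (i + 1) (by omega))]
            exact this
          · push Not at hx
            have hcnt : ∀ j, j ≠ x → (l ++ [x]).count j = l.count j := by
              intro j hj
              simp only [List.count_append, List.count_cons, List.count_nil]
              have : ¬ (x == j) = true := by simpa using fun h => hj h.symm
              simp [this]
            rw [wk_congr (hcnt i hx.1), wk_congr (hcnt (i + 1) hx.2)]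
            exact h3 l (List.prefix_append _ _) i hi1 hi2
        · rw [List.cons_prefix_cons] at hc
          obtain ⟨rfl, hc⟩ := hc
          have hp : l ++ y :: x :: c <+: l ++ y :: x :: r := by
            rw [List.prefix_append_right_inj, List.cons_prefix_cons, List.cons_prefix_cons]
            exact ⟨rfl, rfl, hc⟩
          have hperm2 : (l ++ x :: y :: c).Perm (l ++ y :: x :: c) :=
            (List.Perm.swap y x c).append_left l
          rw [wk_congr (hperm2.count_eq i), wk_congr (hperm2.count_eq (i + 1))]
          exact h3 _ hp i hi1 hi2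

theorem good_class {n p : ℕ} {w w' : List ℕ} (hw : Good n p w) (h : w' ∈ commClass w) :
    Good n p w' := by
  have h' : Relation.ReflTransGen CommStep w w' := h
  induction h' with
  | refl => exact hw
  | tail _ hs ih => exact good_step (ih (by assumption)) hs

/-! ### the alternating word -/

theorem mem_oddBlock {n i : ℕ} : i ∈ oddBlock n ↔ i % 2 = 1 ∧ i < n := by
  unfold oddBlock
  rw [List.mem_map]
  constructor
  · rintro ⟨j, hj, rfl⟩
    rw [List.mem_range] at hj
    omega
  · rintro ⟨h1, h2⟩
    exact ⟨i / 2, by rw [List.mem_range]; omega, by omega⟩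

theorem mem_evenBlock {n i : ℕ} : i ∈ evenBlock n ↔ i % 2 = 0 ∧ 1 ≤ i ∧ i < n := by
  unfold evenBlock
  rw [List.mem_map]
  constructor
  · rintro ⟨j, hj, rfl⟩
    rw [List.mem_range] at hj
    omega
  · rintro ⟨h1, h2, h3⟩
    exact ⟨i / 2 - 1, by rw [List.mem_range]; omega, by omega⟩

theorem nodup_oddBlock (n : ℕ) : (oddBlock n).Nodup := by
  unfold oddBlock
  exact List.Nodup.map (fun a b h => by simpa using h) List.nodup_range

theorem nodup_evenBlock (n : ℕ) : (evenBlock n).Nodup := by
  unfold evenBlock
  exact List.Nodup.map (fun a b h => by simpa using h) List.nodup_range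

/-- the block `m + 1` -/
def blk (n m : ℕ) : List ℕ := if m % 2 = 0 then oddBlock n else evenBlock n

theorem mem_blk {n m i : ℕ} : i ∈ blk n m ↔ i % 2 = (m + 1) % 2 ∧ 1 ≤ i ∧ i < n := by
  unfold blk
  split_ifs with h
  · rw [mem_oddBlock]; omega
  · rw [mem_evenBlock]; omega

theorem nodup_blk (n m : ℕ) : (blk n m).Nodup := by
  unfold blk
  split_ifs
  · exact nodup_oddBlock n
  · exact nodup_evenBlock n

theorem alt_succ (n m : ℕ) : alt n (m + 1) = alt n m ++ blk n m := rfl

theorem count_alt {n : ℕ} (m : ℕ) {i : ℕ} (h1 : 1 ≤ i) (h2 : i < n) :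
    (alt n m).count i = (m + i % 2) / 2 := by
  induction m with
  | zero => simp [alt]
  | succ m ih =>
    rw [alt_succ, List.count_append, ih]
    by_cases h : i ∈ blk n m
    · rw [List.count_eq_one_of_mem (nodup_blk n m) h]
      rw [mem_blk] at h
      omega
    · rw [List.count_eq_zero_of_not_mem h]
      rw [mem_blk] at h
      omega

/-- levels of prefixes of the alternating word -/
theorem alt_prefix {n p : ℕ} (m : ℕ) {u : List ℕ} (hu : u <+: alt n m) :
    (∀ i ∈ u, 1 ≤ i ∧ i < n) ∧ ∃ j : ℕ, ∀ i, 1 ≤ i → i < n →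
      (i % 2 = (j + 1) % 2 → wk n p u i = j + 1 ∨ wk n p u i = j + 3) ∧
      (i % 2 = j % 2 → wk n p u i = j + 2) := by
  induction m generalizing u with
  | zero =>
    have hu' : u = [] := List.prefix_nil.mp hu
    subst hu'
    refine ⟨fun i hi => by simp at hi, 0, fun i h1 h2 => ?_⟩
    rw [wk_in h1 h2]
    rcases base_cases i with ⟨hb, hb'⟩ | ⟨hb, hb'⟩ <;> rw [hb'] <;> simp <;> omega
  | succ m ih =>
    rw [alt_succ] at hu
    rcases prefix_cases hu with h | ⟨c, rfl, hc⟩
    · exact ih h
    · constructor
      · intro i hi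
        rw [List.mem_append] at hi
        rcases hi with hi | hi
        · exact (ih (List.prefix_refl _)).1 i hi
        · have := hc.subset hi
          rw [mem_blk] at this
          exact this.2
      · refine ⟨m, fun i h1 h2 => ?_⟩
        rw [wk_in h1 h2, List.count_append, count_alt m h1 h2]
        have hnd : c.Nodup := hc.sublist.nodup (nodup_blk n m)
        have hle : c.count i ≤ 1 := List.nodup_iff_count_le_one.mp hnd i
        constructor
        · intro h3
          rcases base_cases i with ⟨hb, hb'⟩ | ⟨hb, hb'⟩ <;> rw [hb'] <;> omega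
        · intro h3
          have h0 : c.count i = 0 := by
            apply List.count_eq_zero_of_not_mem
            intro hi
            have := hc.subset hi
            rw [mem_blk] at this
            omega
          rw [h0]
          rcases base_cases i with ⟨hb, hb'⟩ | ⟨hb, hb'⟩ <;> rw [hb'] <;> omega

theorem good_alt (n p : ℕ) : Good n p (alt n (2 * p)) := by
  refine ⟨(alt_prefix (p := p) (2 * p) (List.prefix_refl _)).1, fun i h1 h2 => ?_, ?_⟩
  · rw [count_alt _ h1 h2]; omega
  · intro u hu i h1 h2
    obtain ⟨-, j, hj⟩ := alt_prefix (p := p) (2 * p) hu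
    have a1 := hj i h1 (by omega)
    have a2 := hj (i + 1) (by omega) h2
    rcases Nat.mod_two_eq_zero_or_one (i + j) with h | h
    · have b1 := a1.2 (by omega)
      have b2 := a2.1 (by omega)
      omega
    · have b1 := a1.1 (by omega)
      have b2 := a2.2 (by omega)
      omega

/-! ### every walk comes from a prefix -/

theorem wk_snoc {n p : ℕ} (u : List ℕ) {i : ℕ} (h1 : 1 ≤ i) (h2 : i < n) :
    wk n p (u ++ [i]) = Function.update (wk n p u) i (wk n p u i + 2) := by
  funext j
  by_cases hj : j = i
  · subst hj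
    rw [Function.update_self, wk_in h1 h2, wk_in h1 h2, List.count_append]
    simp
    ring
  · rw [Function.update_of_ne hj]
    apply wk_congr
    rw [List.count_append]
    have : List.count j [i] = 0 := by
      apply List.count_eq_zero_of_not_mem
      simpa using hj
    rw [this, add_zero]

/-- moving a letter to the front past commuting letters -/
theorem move_front (u : List ℕ) (i : ℕ) (v2 : List ℕ) : ∀ v1 : List ℕ,
    (∀ j ∈ v1, i + 2 ≤ j ∨ j + 2 ≤ i) →
    Relation.ReflTransGen CommStep (u ++ v1 ++ i :: v2) (u ++ i :: (v1 ++ v2)) := by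
  intro v1
  induction v1 using List.reverseRecOn with
  | nil => intro _; simp; exact Relation.ReflTransGen.refl
  | append_singleton v1 x ih =>
    intro h
    have hx := h x (by simp)
    have step : CommStep (u ++ (v1 ++ [x]) ++ i :: v2) (u ++ v1 ++ i :: (x :: v2)) := by
      have := CommStep.swap (u ++ v1) v2 x i (by omega)
      simpa using this
    refine (Relation.ReflTransGen.single step).trans ?_
    -- generalise the tail
    have key : ∀ v2' : List ℕ, Relation.ReflTransGen CommStep (u ++ v1 ++ i :: v2')
        (u ++ i :: (v1 ++ v2')) := by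
      intro v2'
      clear ih step
      have h' : ∀ j ∈ v1, i + 2 ≤ j ∨ j + 2 ≤ i := fun j hj => h j (by simp [hj])
      clear h hx
      revert v2'
      induction v1 using List.reverseRecOn with
      | nil => intro v2'; simp; exact Relation.ReflTransGen.refl
      | append_singleton v1 y ih2 =>
        intro v2'
        have hy := h' y (by simp)
        have step : CommStep (u ++ (v1 ++ [y]) ++ i :: v2') (u ++ v1 ++ i :: (y :: v2')) := by
          have := CommStep.swap (u ++ v1) v2' y i (by omega)
          simpa using this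
        refine (Relation.ReflTransGen.single step).trans ?_
        have := ih2 (fun j hj => h' j (by simp [hj])) (y :: v2')
        simpa using this
    have := key (x :: v2)
    simpa using this

theorem exists_word {n p : ℕ} (hn : 3 ≤ n) (a : ℕ → ℤ) (ha : a ∈ W n p) :
    ∃ w ∈ commClass (alt n (2 * p)), ∃ u, u <+: w ∧ wk n p u = a := by
  -- induction on the sum of the levels
  obtain ⟨N, hN⟩ : ∃ N : ℕ, (∑ i ∈ Finset.Ico 1 n, a i) ≤ N :=
    ⟨(∑ i ∈ Finset.Ico 1 n, a i).toNat, Int.self_le_toNat _⟩
  induction N using Nat.strong_induction_on generalizing a with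
  | _ N ih =>
    obtain ⟨ha1, ha2, ha3⟩ := ha
    -- column with maximal level
    obtain ⟨i, hi, hmax⟩ := Finset.exists_max_image (Finset.Ico 1 n) a ⟨1, by simp; omega⟩
    rw [Finset.mem_Ico] at hi
    have hmax' : ∀ j, 1 ≤ j → j < n → a j ≤ a i := fun j h1 h2 =>
      hmax j (Finset.mem_Ico.mpr ⟨h1, h2⟩)
    by_cases hsmall : a i ≤ 2
    · -- bottom
      refine ⟨alt n (2 * p), Relation.ReflTransGen.refl, [], List.nil_prefix, ?_⟩
      funext j
      by_cases hj : 1 ≤ j ∧ j < n
      · rw [wk_in hj.1 hj.2]
        have h1 := ha2 j hj.1 hj.2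
        have h2 := hmax' j hj.1 hj.2
        rcases base_cases j with ⟨hb, hb'⟩ | ⟨hb, hb'⟩ <;> rw [hb'] <;> simp <;> omega
      · rw [wk_out hj, ha1 j hj]
    · push Not at hsmall
      have hi2 := ha2 i hi.1 hi.2
      set a' : ℕ → ℤ := Function.update a i (a i - 2) with ha'
      have ha'i : a' i = a i - 2 := Function.update_self _ _ _
      have ha'j : ∀ j, j ≠ i → a' j = a j := fun j hj => Function.update_of_ne hj _ _
      have ha'W : a' ∈ W n p := by
        refine ⟨fun j hj => ?_, fun j h1 h2 => ?_, fun j h1 h2 => ?_⟩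
        · have : j ≠ i := by rintro rfl; exact hj hi
          rw [ha'j j this]; exact ha1 j hj
        · by_cases hj : j = i
          · subst hj; rw [ha'i]; omega
          · rw [ha'j j hj]; exact ha2 j h1 h2
        · have h3 := ha3 j h1 h2
          by_cases hj : j = i
          · subst hj
            rw [ha'i, ha'j (j + 1) (by omega)]
            have := hmax' (j + 1) (by omega) h2
            omega
          · by_cases hj' : j + 1 = i
            · rw [ha'j j hj, hj', ha'i]
              have := hmax' j (by omega) (by omega)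
              rw [hj'] at h3
              omega
            · rw [ha'j j hj, ha'j (j + 1) hj']
              exact h3
      have hsum : ∑ j ∈ Finset.Ico 1 n, a' j = ∑ j ∈ Finset.Ico 1 n, a j - 2 := by
        have hmem : i ∈ Finset.Ico 1 n := Finset.mem_Ico.mpr hi
        rw [← Finset.add_sum_erase _ _ hmem, ← Finset.add_sum_erase (Finset.Ico 1 n) a hmem, ha'i]
        have : ∑ x ∈ (Finset.Ico 1 n).erase i, a' x = ∑ x ∈ (Finset.Ico 1 n).erase i, a x :=
          Finset.sum_congr rfl (fun j hj => ha'j j (Finset.ne_of_mem_erase hj))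
        rw [this]; ring
      have hpos : 0 ≤ ∑ j ∈ Finset.Ico 1 n, a' j := by
        apply Finset.sum_nonneg
        intro j hj
        rw [Finset.mem_Ico] at hj
        have := (ha'W.2.1 j hj.1 hj.2).1
        omega
      obtain ⟨w, hw, u, ⟨v, hv⟩, hu⟩ := ih (N - 1) (by omega) a' ha'W (by omega)
      have hgood := good_class (good_alt n p) hw
      -- letter `i` occurs in `v`
      have hcu : wk n p u i = a i - 2 := by rw [hu, ha'i]
      have hmemv : i ∈ v := by
        rw [← List.count_pos_iff]
        have h1 := hgood.2.1 i hi.1 hi.2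
        rw [← hv, List.count_append] at h1
        rw [wk_in hi.1 hi.2] at hcu
        rcases base_cases i with ⟨hb, hb'⟩ | ⟨hb, hb'⟩ <;> rw [hb'] at hcu <;> omega
      obtain ⟨v1, v2, hv12, hnot⟩ := List.eq_append_cons_of_mem hmemv
      -- letters of `v1` commute with `i`
      have hcomm : ∀ j ∈ v1, i + 2 ≤ j ∨ j + 2 ≤ i := by
        intro j hj
        by_contra hcon
        have hji : j ≠ i := fun h => hnot (h ▸ hj)
        have hjr : 1 ≤ j ∧ j < n := by
          apply hgood.1
          rw [← hv, hv12]
          simp [hj]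
        -- first occurrence of `j` in `v1`
        obtain ⟨x1, x2, hx12, hxnot⟩ := List.eq_append_cons_of_mem hj
        have hp : u ++ (x1 ++ [j]) <+: w := by
          rw [← hv, hv12, hx12]
          refine ⟨x2 ++ i :: v2, ?_⟩
          simp
        have hci : (u ++ (x1 ++ [j])).count i = u.count i := by
          have h1 : x1.count i = 0 := by
            apply List.count_eq_zero_of_not_mem
            intro h0; apply hnot; rw [hx12]; simp [h0]
          have h2 : List.count i [j] = 0 := by
            apply List.count_eq_zero_of_not_mem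
            simpa using hji.symm
          rw [List.count_append, List.count_append, h1, h2]
          omega
        have hcj : (u ++ (x1 ++ [j])).count j = u.count j + 1 := by
          rw [List.count_append, List.count_append, List.count_eq_zero_of_not_mem hxnot]
          simp
        have e1 : wk n p (u ++ (x1 ++ [j])) i = a i - 2 := by rw [wk_congr hci, hcu]
        have e2 : wk n p (u ++ (x1 ++ [j])) j = a j + 2 := by
          rw [wk_in hjr.1 hjr.2, hcj]
          have : wk n p u j = a j := by rw [hu, ha'j j hji]
          rw [wk_in hjr.1 hjr.2] at this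
          push_cast
          linarith
        rcases Nat.lt_or_gt_of_ne hji with hlt | hlt
        · have hij : i = j + 1 := by omega
          have h1 := hgood.2.2 _ hp j hjr.1 (by omega)
          have h2 := ha3 j hjr.1 (by omega)
          have h3 := hmax' j hjr.1 hjr.2
          rw [← hij, e1, e2] at h1
          rw [← hij] at h2
          omega
        · have hij : j = i + 1 := by omega
          have h1 := hgood.2.2 _ hp i hi.1 (by omega)
          have h2 := ha3 i hi.1 (by omega)
          have h3 := hmax' j hjr.1 hjr.2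
          rw [← hij, e1, e2] at h1
          rw [← hij] at h2
          omega
      refine ⟨u ++ i :: (v1 ++ v2), ?_, u ++ [i], ⟨v1 ++ v2, by simp⟩, ?_⟩
      · have h1 : Relation.ReflTransGen CommStep (alt n (2 * p)) w := hw
        refine h1.trans ?_
        rw [← hv, hv12, ← List.append_assoc]
        exact move_front u i v2 v1 hcomm
      · rw [wk_snoc u hi.1 hi.2, hu]
        funext j
        by_cases hj : j = i
        · subst hj; rw [Function.update_self, ha'i]; ring
        · rw [Function.update_of_ne hj, ha'j j hj]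

end Pool.Agent.X234.CD
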